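import Mathlib

/-!
# A generalised Fekete lemma

A sequence of real numbers of at most linear growth which is superadditive up to a shift `4 K` of
the argument and an error `B (K + n m / K ^ 2)`, for all `K ≥ 1`, grows linearly.
-/

namespace Pool.Agent.Q290.Charged

open Filter Topology

/-- `n ^ (2/3)` -/
noncomputable def pw (n : ℕ) : ℝ := (n : ℝ) ^ (2 / 3 : ℝ)

lemma pw_nonneg (n : ℕ) : 0 ≤ pw n := Real.rpow_nonneg (Nat.cast_nonneg n) _

lemma pw_pos {n : ℕ} (hn : 1 ≤ n) : 0 < pw n := Real.rpow_pos_of_pos (by exact_mod_cast hn) _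

lemma one_le_pw {n : ℕ} (hn : 1 ≤ n) : 1 ≤ pw n :=
  Real.one_le_rpow (by exact_mod_cast hn) (by norm_num)

lemma pw_zero : pw 0 = 0 := by
  unfold pw
  simp

lemma pw_cube (n : ℕ) : pw n ^ 3 = (n : ℝ) ^ 2 := by
  unfold pw
  rw [← Real.rpow_natCast, ← Real.rpow_mul (Nat.cast_nonneg n)]
  norm_num

lemma pw_le_of {n m : ℕ} {c : ℝ} (hc : 0 ≤ c) (h : (m : ℝ) ^ 2 ≤ c ^ 3 * (n : ℝ) ^ 2) :
    pw m ≤ c * pw n := by
  have h1 : pw m ^ 3 ≤ (c * pw n) ^ 3 := by
    rw [mul_pow, pw_cube, pw_cube]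
    exact h
  exact le_of_pow_le_pow_left₀ (by norm_num) (mul_nonneg hc (pw_nonneg n)) h1

/-- `n ^ (2/3)` is at most `x n` for all large `n` -/
lemma pw_le_mul {n : ℕ} {x : ℝ} (hx : 0 < x) (h : 1 / x ^ 3 ≤ n) : pw n ≤ x * n := by
  have h0 : (0 : ℝ) < 1 / x ^ 3 := by positivity
  have hn : (0 : ℝ) < n := lt_of_lt_of_le h0 h
  have h1 : pw n ^ 3 ≤ (x * n) ^ 3 := by
    rw [pw_cube, mul_pow]
    have h2 : 1 ≤ x ^ 3 * n := by
      rw [div_le_iff₀ (by positivity)] at h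
      linarith [h, mul_comm (n : ℝ) (x ^ 3)]
    calc (n : ℝ) ^ 2 = 1 * (n : ℝ) ^ 2 := by ring
      _ ≤ (x ^ 3 * n) * (n : ℝ) ^ 2 := by
          apply mul_le_mul_of_nonneg_right h2 (by positivity)
      _ = x ^ 3 * (n : ℝ) ^ 3 := by ring
  exact le_of_pow_le_pow_left₀ (by norm_num) (by positivity) h1

/-- the connection length for pieces of length at most `N` -/
noncomputable def kk (N : ℕ) : ℕ := ⌈pw N⌉₊

lemma one_le_kk {N : ℕ} (hN : 1 ≤ N) : 1 ≤ kk N := by
  unfold kk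
  exact Nat.one_le_ceil_iff.mpr (pw_pos hN)

lemma pw_le_kk (N : ℕ) : pw N ≤ kk N := Nat.le_ceil _

lemma kk_le {N : ℕ} (hN : 1 ≤ N) : (kk N : ℝ) ≤ 2 * pw N := by
  have h1 : (kk N : ℝ) < pw N + 1 := Nat.ceil_lt_add_one (pw_nonneg N)
  have h2 := one_le_pw hN
  linarith

lemma four_kk_le {N : ℕ} (hN : 32768 ≤ N) : 4 * (kk N : ℝ) ≤ N / 4 := by
  have h1 : (kk N : ℝ) ≤ 2 * pw N := kk_le (by omega)
  have h2 : pw N ≤ (1 / 32) * N := by
    apply pw_le_mul (by norm_num)
    have : ((32768 : ℕ) : ℝ) ≤ N := by exact_mod_cast hN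
    norm_num at this ⊢
    linarith
  linarith

/-- the hypothesis of superadditivity up to errors -/
def Super (b : ℕ → ℝ) (B : ℝ) : Prop :=
  ∀ N n m : ℕ, 1 ≤ N → n ≤ N → m ≤ N → b n + b m - B * pw N ≤ b (n + 4 * kk N + m)

lemma super_of {a : ℕ → ℝ} {B : ℝ} (hB : 0 ≤ B)
    (h : ∀ n m K : ℕ, 1 ≤ K → a n + a m - B * (K + (n : ℝ) * m / (K : ℝ) ^ 2) ≤ a (n + 4 * K + m)) :
    Super a (3 * B) := by
  intro N n m hN hn hm
  have h1 := h n m (kk N) (one_le_kk hN)
  have h2 := kk_le hN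
  have h3 := pw_le_kk N
  have h4 := pw_pos hN
  have h5 : (n : ℝ) * m / (kk N : ℝ) ^ 2 ≤ pw N := by
    have hk : (0 : ℝ) < kk N := lt_of_lt_of_le h4 h3
    rw [div_le_iff₀ (by positivity)]
    have hn' : (n : ℝ) ≤ N := by exact_mod_cast hn
    have hm' : (m : ℝ) ≤ N := by exact_mod_cast hm
    calc (n : ℝ) * m ≤ N * N := by
          apply mul_le_mul hn' hm' (Nat.cast_nonneg m) (Nat.cast_nonneg N)
      _ = pw N ^ 3 := by rw [pw_cube]; ring
      _ = pw N * pw N ^ 2 := by ring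
      _ ≤ pw N * (kk N : ℝ) ^ 2 := by
          apply mul_le_mul_of_nonneg_left _ h4.le
          exact pow_le_pow_left₀ h4.le h3 2
  nlinarith

lemma super_sub {a : ℕ → ℝ} {B : ℝ} (h : Super a B) (v : ℝ) :
    Super (fun n => a n - v * n) (B + 8 * |v|) := by
  intro N n m hN hn hm
  have h1 := h N n m hN hn hm
  have h2 := kk_le hN
  have h3 : v * (kk N : ℝ) ≤ |v| * (2 * pw N) := by
    calc v * (kk N : ℝ) ≤ |v| * (kk N : ℝ) :=
          mul_le_mul_of_nonneg_right (le_abs_self v) (Nat.cast_nonneg _)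
      _ ≤ |v| * (2 * pw N) := mul_le_mul_of_nonneg_left h2 (abs_nonneg v)
  push_cast
  nlinarith

/-- the doubling map -/
noncomputable def dbl (n : ℕ) : ℕ := n + 4 * kk n + n

lemma dbl_ge (n : ℕ) : 2 * n ≤ dbl n := by
  unfold dbl; omega

lemma dbl_le {n : ℕ} (hn : 32768 ≤ n) : (dbl n : ℝ) ≤ 9 / 4 * n := by
  have := four_kk_le hn
  unfold dbl
  push_cast
  linarith

lemma pw_dbl_le {n : ℕ} (hn : 32768 ≤ n) : pw (dbl n) ≤ 19 / 10 * pw n := by
  apply pw_le_of (by norm_num)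
  have h1 := dbl_le hn
  have h2 : (dbl n : ℝ) ^ 2 ≤ (9 / 4 * n) ^ 2 := by
    apply pow_le_pow_left₀ (Nat.cast_nonneg _) h1
  nlinarith [sq_nonneg (n : ℝ)]

lemma dbl_step {b : ℕ → ℝ} {B D : ℝ} (hs : Super b B) (hB : 0 ≤ B) (hD : 10 * B ≤ D)
    {n : ℕ} (hn : 32768 ≤ n) (hb : D * pw n ≤ b n) : D * pw (dbl n) ≤ b (dbl n) := by
  have h1 := hs n n n (by omega) le_rfl le_rfl
  have h2 := pw_dbl_le hn
  have h3 := pw_nonneg n
  have hD0 : 0 ≤ D := by linarith
  have h4 : D * pw (dbl n) ≤ D * (19 / 10 * pw n) := mul_le_mul_of_nonneg_left h2 hD0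
  have h5 : 0 ≤ (D - 10 * B) * pw n := mul_nonneg (by linarith) h3
  unfold dbl at *
  nlinarith

lemma iter_props {b : ℕ → ℝ} {B D : ℝ} (hs : Super b B) (hB : 0 ≤ B) (hD : 10 * B ≤ D)
    {n0 : ℕ} (hn : 32768 ≤ n0) (hb : D * pw n0 ≤ b n0) (k : ℕ) :
    n0 * 2 ^ k ≤ dbl^[k] n0 ∧ D * pw (dbl^[k] n0) ≤ b (dbl^[k] n0) := by
  induction k with
  | zero => simpa using hb
  | succ k ih =>
    rw [Function.iterate_succ_apply']
    have h1 : 1 ≤ 2 ^ k := Nat.one_le_two_pow
    have h2 : n0 ≤ dbl^[k] n0 := le_trans (Nat.le_mul_of_pos_right _ h1) ih.1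
    refine ⟨?_, dbl_step hs hB hD (by omega) ih.2⟩
    have := dbl_ge (dbl^[k] n0)
    calc n0 * 2 ^ (k + 1) = 2 * (n0 * 2 ^ k) := by ring
      _ ≤ 2 * dbl^[k] n0 := by omega
      _ ≤ _ := this

lemma exists_good {b : ℕ → ℝ} {B D : ℝ} (hs : Super b B) (hB : 0 ≤ B) (hD : 10 * B ≤ D)
    {n0 : ℕ} (hn : 32768 ≤ n0) (hb : D * pw n0 ≤ b n0) (k : ℕ) :
    ∀ N : ℕ, 2 * n0 ≤ N → N < 2 * dbl^[k] n0 → ∃ s : ℕ, 2 * s ≤ N ∧ N ≤ 6 * s ∧ 0 ≤ b s := by
  induction k with
  | zero =>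
    intro N h1 h2
    simp at h2
    omega
  | succ k ih =>
    intro N h1 h2
    by_cases h3 : N < 2 * dbl^[k] n0
    · exact ih N h1 h3
    · push Not at h3
      obtain ⟨h4, h5⟩ := iter_props hs hB hD hn hb k
      have h6 : 1 ≤ 2 ^ k := Nat.one_le_two_pow
      have h7 : n0 ≤ dbl^[k] n0 := le_trans (Nat.le_mul_of_pos_right _ h6) h4
      refine ⟨dbl^[k] n0, h3, ?_, ?_⟩
      · rw [Function.iterate_succ_apply'] at h2
        have h8 := dbl_le (n := dbl^[k] n0) (by omega)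
        have h9 : (dbl (dbl^[k] n0) : ℝ) ≤ 3 * (dbl^[k] n0 : ℕ) := by
          have : (0 : ℝ) ≤ (dbl^[k] n0 : ℕ) := Nat.cast_nonneg _
          linarith
        have h10 : dbl (dbl^[k] n0) ≤ 3 * dbl^[k] n0 := by exact_mod_cast h9
        omega
      · have : 0 ≤ D := by linarith
        exact le_trans (mul_nonneg this (pw_nonneg _)) h5

lemma lower_of_good {b : ℕ → ℝ} {A B D : ℝ} (hs : Super b B) (hA : 0 ≤ A) (hB : 0 ≤ B)
    (hD : 10 * B ≤ D) (hlin : ∀ n, |b n| ≤ A * n)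
    {n0 : ℕ} (hn : 32768 ≤ n0) (hb : D * pw n0 ≤ b n0) :
    ∃ E : ℝ, 0 ≤ E ∧ ∀ N : ℕ, - E * pw N ≤ b N := by
  have hD0 : 0 ≤ D := by linarith
  refine ⟨max (10 * B) (A * (2 * n0)), le_max_of_le_left (by linarith), ?_⟩
  set E := max (10 * B) (A * (2 * n0)) with hE
  have hE1 : 10 * B ≤ E := le_max_left _ _
  have hE2 : A * (2 * n0) ≤ E := le_max_right _ _
  have hE0 : 0 ≤ E := by linarith
  intro N
  induction N using Nat.strong_induction_on with
  | _ N ih =>
    by_cases hN : N < 2 * n0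
    · rcases Nat.eq_zero_or_pos N with h0 | h0
      · subst h0
        have := hlin 0
        simp at this
        rw [pw_zero, this]
        simp
      · have h1 : |b N| ≤ A * N := hlin N
        have h2 : (N : ℝ) ≤ 2 * n0 := by exact_mod_cast hN.le
        have h3 : |b N| ≤ E := by
          calc |b N| ≤ A * N := h1
            _ ≤ A * (2 * n0) := mul_le_mul_of_nonneg_left h2 hA
            _ ≤ E := hE2
        have h4 := one_le_pw h0
        have h5 : E ≤ E * pw N := le_mul_of_one_le_right hE0 h4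
        have h6 := neg_abs_le (b N)
        linarith
    · push Not at hN
      obtain ⟨k, hk⟩ : ∃ k, N < 2 * dbl^[k] n0 := by
        refine ⟨N, ?_⟩
        have h1 := (iter_props hs hB hD hn hb N).1
        have h2 : N < 2 ^ N := Nat.lt_two_pow_self
        have h3 : 2 ^ N ≤ n0 * 2 ^ N := Nat.le_mul_of_pos_left _ (by omega)
        omega
      obtain ⟨s, hs1, hs2, hs3⟩ := exists_good hs hB hD hn hb k N hN hk
      have hNb : 32768 ≤ N := by omega
      have h4 := four_kk_le hNb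
      have h5 : 4 * (4 * kk N) ≤ N := by
        have : (4 * (4 * kk N) : ℝ) ≤ N := by linarith
        exact_mod_cast this
      obtain ⟨m, hm⟩ : ∃ m, N = s + 4 * kk N + m := ⟨N - s - 4 * kk N, by omega⟩
      have hspos : 0 < s := by omega
      have hm1 : 6 * m ≤ 5 * N := by omega
      have hm2 : m < N := by omega
      have h6 := ih m hm2
      have h7 := hs N s m (by omega) (by omega) hm2.le
      rw [← hm] at h7
      have h8 : pw m ≤ 9 / 10 * pw N := by
        apply pw_le_of (by norm_num)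
        have h9 : (6 * m : ℝ) ≤ 5 * N := by exact_mod_cast hm1
        have h10 : (m : ℝ) ≤ 5 / 6 * N := by linarith
        have h11 : (m : ℝ) ^ 2 ≤ (5 / 6 * N) ^ 2 := pow_le_pow_left₀ (Nat.cast_nonneg _) h10 2
        nlinarith [sq_nonneg (N : ℝ)]
      have h12 : E * pw m ≤ E * (9 / 10 * pw N) := mul_le_mul_of_nonneg_left h8 hE0
      have h13 : 0 ≤ (E - 10 * B) * pw N := mul_nonneg (by linarith) (pw_nonneg N)
      nlinarith

/-- **Generalised Fekete lemma.** -/
theorem tendsto_of_super {a : ℕ → ℝ} {A B : ℝ} (hA : 0 ≤ A) (hB : 0 ≤ B)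
    (hlin : ∀ n, |a n| ≤ A * n)
    (h : ∀ n m K : ℕ, 1 ≤ K → a n + a m - B * (K + (n : ℝ) * m / (K : ℝ) ^ 2) ≤ a (n + 4 * K + m)) :
    ∃ L : ℝ, Tendsto (fun n : ℕ => a n / n) atTop (𝓝 L) := by
  have hs := super_of hB h
  set f : ℕ → ℝ := fun n => a n / n with hf
  have hbd : ∀ n, |f n| ≤ A := by
    intro n
    rcases Nat.eq_zero_or_pos n with h0 | h0
    · subst h0; simp [hf, hA]
    · have h1 := hlin n
      have h2 : (0 : ℝ) < n := by exact_mod_cast h0
      rw [hf]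
      simp only
      rw [abs_div, abs_of_pos h2, div_le_iff₀ h2]
      exact h1
  have hbu : IsBoundedUnder (· ≤ ·) atTop f :=
    ⟨A, by simp only [eventually_map]; exact Eventually.of_forall fun n => (abs_le.mp (hbd n)).2⟩
  have hbl : IsBoundedUnder (· ≥ ·) atTop f :=
    ⟨-A, by simp only [eventually_map]; exact Eventually.of_forall fun n => (abs_le.mp (hbd n)).1⟩
  have hcob : IsCoboundedUnder (· ≤ ·) atTop f := hbl.isCoboundedUnder_le
  set u := limsup f atTop with hu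
  refine ⟨u, ?_⟩
  rw [Metric.tendsto_atTop']
  have upper : ∀ ε > 0, ∀ᶠ n in atTop, f n < u + ε := by
    intro ε hε
    exact eventually_lt_of_limsup_lt (by linarith) hbu
  have lower : ∀ ε > 0, ∀ᶠ n in atTop, u - ε < f n := by
    intro ε hε
    set v := u - ε / 2 with hv
    have hfreq : ∃ᶠ n in atTop, v + ε / 4 < f n :=
      frequently_lt_of_lt_limsup hcob (by rw [← hu]; linarith)
    set b : ℕ → ℝ := fun n => a n - v * n with hb
    set B' := 3 * B + 8 * |v| with hB'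
    have hB0 : 0 ≤ B' := by positivity
    have hsb : Super b B' := super_sub hs v
    set D := 10 * B' with hD
    obtain ⟨x, hx, hxD⟩ : ∃ x : ℝ, 0 < x ∧ D * x ≤ ε / 4 := by
      refine ⟨ε / 4 / (D + 1), by positivity, ?_⟩
      have hD0 : 0 ≤ D := by positivity
      rw [mul_div_assoc', div_le_iff₀ (by linarith)]
      nlinarith
    obtain ⟨M, hM⟩ := exists_nat_ge (1 / x ^ 3)
    obtain ⟨n0, hn0, hfn0⟩ := (frequently_atTop.mp hfreq) (max 32768 M)
    have hn1 : 32768 ≤ n0 := le_trans (le_max_left _ _) hn0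
    have hn2 : M ≤ n0 := le_trans (le_max_right _ _) hn0
    have hn0pos : (0 : ℝ) < n0 := by
      have : 0 < n0 := by omega
      exact_mod_cast this
    have h1 : pw n0 ≤ x * n0 := by
      apply pw_le_mul hx
      have : (M : ℝ) ≤ n0 := by exact_mod_cast hn2
      linarith
    have h2 : D * pw n0 ≤ b n0 := by
      have hD0 : 0 ≤ D := by positivity
      have h3 : D * pw n0 ≤ (D * x) * n0 := by
        calc D * pw n0 ≤ D * (x * n0) := mul_le_mul_of_nonneg_left h1 hD0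
          _ = _ := by ring
      have h4 : (D * x) * n0 ≤ ε / 4 * n0 := mul_le_mul_of_nonneg_right hxD hn0pos.le
      have h5 : (v + ε / 4) * n0 < a n0 := by
        rw [hf] at hfn0
        simp only at hfn0
        rwa [lt_div_iff₀ hn0pos] at hfn0
      rw [hb]
      simp only
      linarith
    have hlinb : ∀ n, |b n| ≤ (A + |v|) * n := by
      intro n
      rw [hb]
      simp only
      calc |a n - v * n| ≤ |a n| + |v * n| := abs_sub _ _
        _ ≤ A * n + |v| * n := by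
            rw [abs_mul, Nat.abs_cast]
            linarith [hlin n]
        _ = (A + |v|) * n := by ring
    obtain ⟨E, hE0, hE⟩ := lower_of_good hsb (by positivity) hB0 le_rfl hlinb hn1 h2
    -- conclude
    obtain ⟨y, hy, hyE⟩ : ∃ y : ℝ, 0 < y ∧ E * y < ε / 2 := by
      refine ⟨ε / 4 / (E + 1), by positivity, ?_⟩
      rw [mul_div_assoc', div_lt_iff₀ (by linarith)]
      nlinarith
    obtain ⟨M', hM'⟩ := exists_nat_ge (1 / y ^ 3)
    filter_upwards [eventually_ge_atTop (max 1 M')] with N hN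
    have hN1 : 1 ≤ N := le_trans (le_max_left _ _) hN
    have hN2 : M' ≤ N := le_trans (le_max_right _ _) hN
    have hNpos : (0 : ℝ) < N := by exact_mod_cast hN1
    have h6 : pw N ≤ y * N := by
      apply pw_le_mul hy
      have : (M' : ℝ) ≤ N := by exact_mod_cast hN2
      linarith
    have h7 := hE N
    rw [hf]
    simp only
    rw [lt_div_iff₀ hNpos]
    have h8 : E * pw N ≤ (E * y) * N := by
      calc E * pw N ≤ E * (y * N) := mul_le_mul_of_nonneg_left h6 hE0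
        _ = _ := by ring
    have h9 : (E * y) * N < ε / 2 * N := mul_lt_mul_of_pos_right hyE hNpos
    rw [hb] at h7
    simp only at h7
    have h10 : (u - ε) * N = v * N - ε / 2 * N := by rw [hv]; ring
    rw [h10]
    linarith
  intro ε hε
  have h3 := (upper ε hε).and (lower ε hε)
  obtain ⟨N, hN⟩ := eventually_atTop.mp h3
  refine ⟨N, fun n hn => ?_⟩
  obtain ⟨h4, h5⟩ := hN n hn.le
  rw [Real.dist_eq, abs_lt]
  constructor <;> linarith

end Pool.Agent.Q290.Charged
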