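import Mathlib

/-!
# Weights of lattice walks which are products over the visited sites

A weight sequence `g` with `g 0 = 1`, `g ≤ 1` and `c * g l ≤ g (l + 1)`. The sum over all walks
of length `n` of the product over the sites `x` of `g (local time of x)` is supermultiplicative up
to errors: two walks are joined through a connection of `4 K` steps, whose end is chosen among
`K ^ 2` sites such that the number of the pairs of times at which the two walks meet is at most
`n m / K ^ 2`.
-/

namespace Pool.Agent.Q290.Charged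

open Finset

/-- A step of the simple random walk on `ℤ^d`: a coordinate and a sign. -/
abbrev Step (d : ℕ) := Fin d × Bool

/-- The lattice vector of a step. -/
def stepVec {d : ℕ} (s : Step d) : Fin d → ℤ := Pi.single s.1 (if s.2 then 1 else -1)

/-- The position of the walk with steps `w 0, w 1, ...` after the steps `w 0, ..., w i`. -/
def position {d n : ℕ} (w : Fin n → Step d) (i : Fin n) : Fin d → ℤ :=
  ∑ j ∈ univ.filter (fun j => j ≤ i), stepVec (w j)

/-- The number of the times `1, ..., n` at which the walk is at `x`. -/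
def localTime {d n : ℕ} (w : Fin n → Step d) (x : Fin d → ℤ) : ℕ :=
  (univ.filter (fun i : Fin n => position w i = x)).card

/-- the product over the sites of the weights of the local times -/
noncomputable def W {X : Type*} (g : ℕ → ℝ) (L : X →₀ ℕ) : ℝ := L.prod fun _ k => g k

/-- the total mass -/
def tot {X : Type*} (L : X →₀ ℕ) : ℕ := L.sum fun _ k => k

/-- admissible weights -/
structure Good (g : ℕ → ℝ) (c : ℝ) : Prop where
  zero : g 0 = 1
  le_one : ∀ l, g l ≤ 1
  step : ∀ l, c * g l ≤ g (l + 1)
  cpos : 0 < c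
  cle : c ≤ 1

section Weights

variable {X : Type*} {g : ℕ → ℝ} {c : ℝ}

lemma Good.pos (h : Good g c) (l : ℕ) : 0 < g l := by
  induction l with
  | zero => rw [h.zero]; norm_num
  | succ l ih => exact lt_of_lt_of_le (mul_pos h.cpos ih) (h.step l)

lemma Good.add (h : Good g c) (a b : ℕ) : c ^ b * g a ≤ g (a + b) := by
  induction b with
  | zero => simp
  | succ b ih =>
    calc c ^ (b + 1) * g a = c * (c ^ b * g a) := by ring
      _ ≤ c * g (a + b) := mul_le_mul_of_nonneg_left ih h.cpos.le
      _ ≤ g (a + b + 1) := h.step _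

lemma Good.pair (h : Good g c) (a b : ℕ) : c ^ (a * b) * (g a * g b) ≤ g (a + b) := by
  rcases Nat.eq_zero_or_pos a with ha | ha
  · subst ha; simp [h.zero]
  · have h1 : c ^ (a * b) ≤ c ^ b :=
      pow_le_pow_of_le_one h.cpos.le h.cle (Nat.le_mul_of_pos_left b ha)
    have h2 : g a * g b ≤ g a := mul_le_of_le_one_right (h.pos a).le (h.le_one b)
    calc c ^ (a * b) * (g a * g b) ≤ c ^ b * g a := by
          apply mul_le_mul h1 h2 (mul_nonneg (h.pos a).le (h.pos b).le)
          exact pow_nonneg h.cpos.le _
      _ ≤ _ := h.add a b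

lemma W_eq (h : Good g c) (L : X →₀ ℕ) (s : Finset X) (hs : L.support ⊆ s) :
    W g L = ∏ x ∈ s, g (L x) :=
  Finsupp.prod_of_support_subset L hs _ fun _ _ => h.zero

lemma W_pos (h : Good g c) (L : X →₀ ℕ) : 0 < W g L := by
  unfold W Finsupp.prod
  exact Finset.prod_pos fun x _ => h.pos _

lemma W_le_one (h : Good g c) (L : X →₀ ℕ) : W g L ≤ 1 := by
  unfold W Finsupp.prod
  exact Finset.prod_le_one (fun x _ => (h.pos _).le) fun x _ => h.le_one _

lemma tot_eq (L : X →₀ ℕ) (s : Finset X) (hs : L.support ⊆ s) : tot L = ∑ x ∈ s, L x :=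
  Finsupp.sum_of_support_subset L hs _ fun _ _ => rfl

lemma W_add_tot (h : Good g c) (L L' : X →₀ ℕ) : c ^ tot L' * W g L ≤ W g (L + L') := by
  classical
  set s := L.support ∪ L'.support with hs
  rw [W_eq h L s subset_union_left, tot_eq L' s subset_union_right,
    W_eq h (L + L') s Finsupp.support_add, ← Finset.prod_pow_eq_pow_sum, ← Finset.prod_mul_distrib]
  apply Finset.prod_le_prod
  · intro x _
    exact mul_nonneg (pow_nonneg h.cpos.le _) (h.pos _).le
  · intro x _
    exact h.add (L x) (L' x)

/-- the number of meetings -/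
def ov (L L' : X →₀ ℕ) : ℕ := ∑ x ∈ L.support, L x * L' x

lemma W_add_ov (h : Good g c) (L L' : X →₀ ℕ) :
    c ^ ov L L' * (W g L * W g L') ≤ W g (L + L') := by
  classical
  set s := L.support ∪ L'.support with hs
  have h0 : ov L L' = ∑ x ∈ s, L x * L' x := by
    unfold ov
    apply Finset.sum_subset subset_union_left
    intro x _ hx
    rw [Finsupp.notMem_support_iff.mp hx, zero_mul]
  rw [h0, W_eq h L s subset_union_left, W_eq h L' s subset_union_right,
    W_eq h (L + L') s Finsupp.support_add, ← Finset.prod_pow_eq_pow_sum,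
    ← Finset.prod_mul_distrib, ← Finset.prod_mul_distrib]
  apply Finset.prod_le_prod
  · intro x _
    exact mul_nonneg (pow_nonneg h.cpos.le _) (mul_nonneg (h.pos _).le (h.pos _).le)
  · intro x _
    exact h.pair (L x) (L' x)

lemma W_map {Y : Type*} (L : X →₀ ℕ) (f : X → Y) (hf : Function.Injective f) :
    W g (L.mapDomain f) = W g L := by
  unfold W
  rw [Finsupp.prod_mapDomain_index_inj hf]

lemma sum_inj_le {ι : Type*} (L : X →₀ ℕ) (s : Finset ι) (φ : ι → X)
    (hφ : Function.Injective φ) : ∑ i ∈ s, L (φ i) ≤ tot L := by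
  classical
  have h1 : ∑ i ∈ s, L (φ i) = ∑ y ∈ s.image φ, L y := by
    rw [Finset.sum_image]
    intro a _ b _ hab
    exact hφ hab
  rw [h1, tot_eq L (s.image φ ∪ L.support) subset_union_right]
  exact Finset.sum_le_sum_of_subset subset_union_left

/-- averaging over shifts -/
lemma exists_shift [AddCommGroup X] {ι : Type*} (L L' : X →₀ ℕ) (s : Finset ι) (hs : s.Nonempty)
    (z : ι → X) (hz : Function.Injective z) :
    ∃ i ∈ s, ov L (L'.mapDomain (fun y => y + z i)) * s.card ≤ tot L * tot L' := by
  have key : ∑ i ∈ s, ov L (L'.mapDomain (fun y => y + z i)) ≤ tot L * tot L' := by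
    unfold ov
    rw [Finset.sum_comm]
    have h1 : ∀ x ∈ L.support, ∑ i ∈ s, L x * (L'.mapDomain (fun y => y + z i)) x ≤
        L x * tot L' := by
      intro x _
      rw [← Finset.mul_sum]
      apply Nat.mul_le_mul_left
      have h2 : ∀ i, (L'.mapDomain (fun y => y + z i)) x = L' (x - z i) := by
        intro i
        have h3 : x = (fun y => y + z i) (x - z i) := by simp
        conv_lhs => rw [h3]
        rw [Finsupp.mapDomain_apply (add_left_injective (z i))]
      simp_rw [h2]
      apply sum_inj_le L' s (fun i => x - z i)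
      intro a b hab
      apply hz
      exact sub_right_injective hab
    refine le_trans (Finset.sum_le_sum h1) ?_
    rw [← Finset.sum_mul]
    rfl
  have h4 : ∑ i ∈ s, ov L (L'.mapDomain (fun y => y + z i)) * s.card ≤
      ∑ _i ∈ s, tot L * tot L' := by
    rw [← Finset.sum_mul, Finset.sum_const, smul_eq_mul, mul_comm]
    exact Nat.mul_le_mul_left _ key
  exact Finset.exists_le_of_sum_le hs h4

end Weights

section Lists

variable {d : ℕ}

/-- the end of a walk -/
def fin' (l : List (Step d)) : Fin d → ℤ := (l.map stepVec).sum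

/-- the local times of a walk -/
noncomputable def vis : List (Step d) → ((Fin d → ℤ) →₀ ℕ)
  | [] => 0
  | s :: l => Finsupp.single (stepVec s) 1 + (vis l).mapDomain (fun y => y + stepVec s)

lemma vis_append (l l' : List (Step d)) :
    vis (l ++ l') = vis l + (vis l').mapDomain (fun y => y + fin' l) := by
  induction l with
  | nil =>
    have : (fun y : Fin d → ℤ => y + fin' ([] : List (Step d))) = id := by
      funext y; simp [fin']
    rw [this, Finsupp.mapDomain_id]
    simp [vis]
  | cons s l ih =>
    rw [List.cons_append, vis, ih, Finsupp.mapDomain_add, ← Finsupp.mapDomain_comp, vis, add_assoc]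
    have h1 : (fun y : Fin d → ℤ => y + stepVec s) ∘ (fun y => y + fin' l) =
        fun y => y + fin' (s :: l) := by
      funext y
      simp [fin', add_comm, add_left_comm]
    rw [h1]

lemma tot_add (L L' : (Fin d → ℤ) →₀ ℕ) : tot (L + L') = tot L + tot L' :=
  Finsupp.sum_add_index' (fun _ => rfl) fun _ _ _ => rfl

lemma tot_map (L : (Fin d → ℤ) →₀ ℕ) (f : (Fin d → ℤ) → (Fin d → ℤ)) :
    tot (L.mapDomain f) = tot L :=
  Finsupp.sum_mapDomain_index (fun _ => rfl) fun _ _ _ => rfl

lemma tot_vis (l : List (Step d)) : tot (vis l) = l.length := by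
  induction l with
  | nil => simp [vis, tot]
  | cons s l ih =>
    rw [vis, tot_add, tot_map, ih]
    have : tot (Finsupp.single (stepVec s) 1) = 1 := by
      unfold tot
      rw [Finsupp.sum_single_index rfl]
    rw [this, List.length_cons, add_comm]

lemma fin'_append (l l' : List (Step d)) : fin' (l ++ l') = fin' l + fin' l' := by
  simp [fin']

lemma fin'_replicate (n : ℕ) (s : Step d) : fin' (List.replicate n s) = n • stepVec s := by
  simp [fin']

lemma stepVec_true (a : Fin d) : stepVec (a, true) = Pi.single a 1 := by simp [stepVec]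

lemma stepVec_false (a : Fin d) : stepVec (a, false) = - Pi.single a 1 := by
  simp [stepVec, ← Pi.single_neg]

lemma exists_line (a : Fin d) (K i : ℕ) (hi : i ≤ K) :
    ∃ l : List (Step d), l.length = 2 * K ∧ fin' l = (2 * i) • (Pi.single a (1 : ℤ)) := by
  refine ⟨List.replicate (K + i) (a, true) ++ List.replicate (K - i) (a, false), ?_, ?_⟩
  · simp
    omega
  · rw [fin'_append, fin'_replicate, fin'_replicate, stepVec_true, stepVec_false]
    have h1 : K + i = (K - i) + 2 * i := by omega
    rw [h1, add_smul, smul_neg]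
    abel

/-- the ends of the connections -/
def zvec (hd : 2 ≤ d) (p : ℕ × ℕ) : Fin d → ℤ :=
  (2 * p.1) • (Pi.single (⟨0, by omega⟩ : Fin d) (1 : ℤ)) +
    (2 * p.2) • (Pi.single (⟨1, by omega⟩ : Fin d) (1 : ℤ))

lemma zvec_injective (hd : 2 ≤ d) : Function.Injective (zvec hd) := by
  intro p q h
  have h0 := congrFun h ⟨0, by omega⟩
  have h1 := congrFun h ⟨1, by omega⟩
  have e1 : (⟨0, by omega⟩ : Fin d) ≠ ⟨1, by omega⟩ := by simp
  simp [zvec, e1] at h0
  simp [zvec, e1.symm] at h1
  exact Prod.ext (by exact_mod_cast h0) (by exact_mod_cast h1)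

lemma exists_connection (hd : 2 ≤ d) (K : ℕ) (p : ℕ × ℕ) (h1 : p.1 < K) (h2 : p.2 < K) :
    ∃ l : List (Step d), l.length = 4 * K ∧ fin' l = zvec hd p := by
  obtain ⟨l, hl, hl'⟩ := exists_line (⟨0, by omega⟩ : Fin d) K p.1 h1.le
  obtain ⟨m, hm, hm'⟩ := exists_line (⟨1, by omega⟩ : Fin d) K p.2 h2.le
  refine ⟨l ++ m, ?_, ?_⟩
  · rw [List.length_append, hl, hm]; ring
  · rw [fin'_append, hl', hm']; rfl

lemma exists_join {g : ℕ → ℝ} {c : ℝ} (h : Good g c) (hd : 2 ≤ d) (K : ℕ) (hK : 1 ≤ K)
    (l l' : List (Step d)) :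
    ∃ m : List (Step d), m.length = 4 * K ∧
      c ^ (4 * K + l.length * l'.length / K ^ 2) * (W g (vis l) * W g (vis l')) ≤
        W g (vis (l ++ m ++ l')) := by
  classical
  set s : Finset (ℕ × ℕ) := range K ×ˢ range K with hs
  have hsn : s.Nonempty := ⟨(0, 0), by simp [hs]; omega⟩
  obtain ⟨p, hp, hpo⟩ := exists_shift (vis l) (vis l') s hsn (fun p => fin' l + zvec hd p)
    (fun a b hab => zvec_injective hd (add_left_cancel hab))
  rw [tot_vis, tot_vis, hs, card_product, card_range] at hpo
  simp only [hs, mem_product, mem_range] at hp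
  obtain ⟨m, hm, hm'⟩ := exists_connection hd K p hp.1 hp.2
  refine ⟨m, hm, ?_⟩
  have h1 : vis (l ++ m ++ l') =
      (vis l + (vis l').mapDomain (fun y => y + (fin' l + zvec hd p))) +
        (vis m).mapDomain (fun y => y + fin' l) := by
    rw [vis_append, vis_append, fin'_append, hm']
    abel
  rw [h1]
  have h2 := W_add_tot h (vis l + (vis l').mapDomain (fun y => y + (fin' l + zvec hd p)))
    ((vis m).mapDomain (fun y => y + fin' l))
  rw [tot_map, tot_vis, hm] at h2
  refine le_trans ?_ h2
  have h3 := W_add_ov h (vis l) ((vis l').mapDomain (fun y => y + (fin' l + zvec hd p)))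
  rw [W_map (vis l') _ (add_left_injective _)] at h3
  set o := ov (vis l) ((vis l').mapDomain (fun y => y + (fin' l + zvec hd p))) with ho
  have h4 : o ≤ l.length * l'.length / K ^ 2 := by
    rw [Nat.le_div_iff_mul_le (by positivity), pow_two]
    exact hpo
  have h5 : c ^ (l.length * l'.length / K ^ 2) ≤ c ^ o :=
    pow_le_pow_of_le_one h.cpos.le h.cle h4
  have h6 : 0 ≤ W g (vis l) * W g (vis l') := mul_nonneg (W_pos h _).le (W_pos h _).le
  rw [pow_add, mul_assoc]
  apply mul_le_mul_of_nonneg_left _ (pow_nonneg h.cpos.le _)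
  exact le_trans (mul_le_mul_of_nonneg_right h5 h6) h3

end Lists

section Sums

variable {d : ℕ}

/-- the sum over all walks of length `n` -/
noncomputable def Y (g : ℕ → ℝ) (d n : ℕ) : ℝ :=
  ∑ w : Fin n → Step d, W g (vis (List.ofFn w))

lemma exists_ofFn {α : Type*} {n : ℕ} (l : List α) (h : l.length = n) :
    ∃ f : Fin n → α, List.ofFn f = l := by
  subst h
  exact ⟨l.get, List.ofFn_get l⟩

theorem Y_join {g : ℕ → ℝ} {c : ℝ} (h : Good g c) (hd : 2 ≤ d) (n m K : ℕ) (hK : 1 ≤ K) :
    c ^ (4 * K + n * m / K ^ 2) * (Y g d n * Y g d m) ≤ Y g d (n + 4 * K + m) := by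
  classical
  have key : ∀ p : (Fin n → Step d) × (Fin m → Step d), ∃ f : Fin (4 * K) → Step d,
      c ^ (4 * K + n * m / K ^ 2) * (W g (vis (List.ofFn p.1)) * W g (vis (List.ofFn p.2))) ≤
        W g (vis (List.ofFn (Fin.append (Fin.append p.1 f) p.2))) := by
    intro p
    obtain ⟨l, hl, hl'⟩ := exists_join h hd K hK (List.ofFn p.1) (List.ofFn p.2)
    obtain ⟨f, hf⟩ := exists_ofFn l hl
    refine ⟨f, ?_⟩
    rw [List.ofFn_fin_append, List.ofFn_fin_append, hf]
    rw [List.length_ofFn, List.length_ofFn] at hl'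
    exact hl'
  choose f hf using key
  set ι : (Fin n → Step d) × (Fin m → Step d) → (Fin (n + 4 * K + m) → Step d) :=
    fun p => Fin.append (Fin.append p.1 (f p)) p.2 with hι
  have hinj : Function.Injective ι := by
    intro p q hpq
    apply Prod.ext
    · funext i
      have := congrFun hpq (Fin.castAdd m (Fin.castAdd (4 * K) i))
      simpa [hι] using this
    · funext i
      have := congrFun hpq (Fin.natAdd (n + 4 * K) i)
      simpa [hι] using this
  have h1 : Y g d n * Y g d m = ∑ p : (Fin n → Step d) × (Fin m → Step d),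
      W g (vis (List.ofFn p.1)) * W g (vis (List.ofFn p.2)) := by
    unfold Y
    rw [Finset.sum_mul_sum, ← Finset.sum_product']
    rfl
  rw [h1, Finset.mul_sum]
  refine le_trans (Finset.sum_le_sum fun p _ => hf p) ?_
  have h2 : ∑ p : (Fin n → Step d) × (Fin m → Step d), W g (vis (List.ofFn (ι p))) =
      ∑ w ∈ univ.image ι, W g (vis (List.ofFn w)) := by
    rw [Finset.sum_image]
    intro a _ b _ hab
    exact hinj hab
  change ∑ p : (Fin n → Step d) × (Fin m → Step d), W g (vis (List.ofFn (ι p))) ≤ _
  rw [h2]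
  unfold Y
  apply Finset.sum_le_sum_of_subset_of_nonneg (Finset.subset_univ _)
  intro w _ _
  exact (W_pos h _).le

lemma Y_le {g : ℕ → ℝ} {c : ℝ} (h : Good g c) (n : ℕ) : Y g d n ≤ (2 * d : ℝ) ^ n := by
  unfold Y
  calc ∑ w : Fin n → Step d, W g (vis (List.ofFn w)) ≤ ∑ _w : Fin n → Step d, (1 : ℝ) :=
        Finset.sum_le_sum fun w _ => W_le_one h _
    _ = _ := by
        simp [Fintype.card_prod, mul_comm]

lemma le_Y {g : ℕ → ℝ} {c : ℝ} (h : Good g c) (n : ℕ) : c ^ n * (2 * d : ℝ) ^ n ≤ Y g d n := by
  classical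
  unfold Y
  calc c ^ n * (2 * d : ℝ) ^ n = ∑ _w : Fin n → Step d, c ^ n := by
        simp [Fintype.card_prod, mul_comm]
    _ ≤ _ := by
        apply Finset.sum_le_sum
        intro w _
        have h1 := W_add_tot h 0 (vis (List.ofFn w))
        rw [tot_vis, List.length_ofFn, zero_add] at h1
        have h2 : W g (0 : (Fin d → ℤ) →₀ ℕ) = 1 := by simp [W]
        rw [h2, mul_one] at h1
        exact h1

end Sums

section LocalTime

variable {d : ℕ}

lemma position_zero {n : ℕ} (w : Fin (n + 1) → Step d) : position w 0 = stepVec (w 0) := by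
  unfold position
  have : (univ.filter (fun j : Fin (n + 1) => j ≤ 0)) = {0} := by
    ext j; simp
  rw [this, sum_singleton]

lemma position_succ {n : ℕ} (w : Fin (n + 1) → Step d) (i : Fin n) :
    position w i.succ = position (fun j => w j.succ) i + stepVec (w 0) := by
  unfold position
  rw [Finset.sum_filter, Finset.sum_filter, Fin.sum_univ_succ]
  simp only [Fin.succ_le_succ_iff, Fin.zero_le, if_true]
  rw [add_comm]

lemma vis_ofFn {n : ℕ} (w : Fin n → Step d) (x : Fin d → ℤ) :
    vis (List.ofFn w) x = localTime w x := by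
  classical
  induction n generalizing x with
  | zero => simp [vis, localTime]
  | succ n ih =>
    rw [List.ofFn_succ, vis, Finsupp.add_apply]
    have h3 : x = (fun y => y + stepVec (w 0)) (x - stepVec (w 0)) := by simp
    have h4 : (vis (List.ofFn fun i => w i.succ)).mapDomain (fun y => y + stepVec (w 0)) x =
        vis (List.ofFn fun i => w i.succ) (x - stepVec (w 0)) := by
      conv_lhs => rw [h3]
      rw [Finsupp.mapDomain_apply (add_left_injective (stepVec (w 0)))]
    rw [h4, ih]
    unfold localTime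
    rw [Finset.card_filter, Finset.card_filter, Fin.sum_univ_succ, position_zero]
    congr 1
    · rw [Finsupp.single_apply]
    · apply Finset.sum_congr rfl
      intro i _
      rw [position_succ]
      have : (position (fun j => w j.succ) i = x - stepVec (w 0)) ↔
          (position (fun j => w j.succ) i + stepVec (w 0) = x) := eq_sub_iff_add_eq
      simp only [this]

lemma finprod_localTime {g : ℕ → ℝ} {c : ℝ} (h : Good g c) {n : ℕ} (w : Fin n → Step d) :
    ∏ᶠ x : Fin d → ℤ, g (localTime w x) = W g (vis (List.ofFn w)) := by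
  classical
  unfold W Finsupp.prod
  have h1 : (fun x => g (localTime w x)) = fun x => g (vis (List.ofFn w) x) := by
    funext x; rw [vis_ofFn]
  rw [h1]
  apply finprod_eq_prod_of_mulSupport_subset
  intro x hx
  rw [Function.mem_mulSupport] at hx
  simp only [Finset.mem_coe, Finsupp.mem_support_iff]
  intro h0
  apply hx
  rw [h0, h.zero]

end LocalTime

end Pool.Agent.Q290.Charged
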